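import Pool.Agent.N718.DC.Stm

/-!
# Project DC (helper718), part VSUM (helper771): the mean value of the local factors
-/

set_option autoImplicit false

namespace Pool.Agent.N771.DC

open Finset Pool.Agent.N718.DC

namespace VSUM

theorem add_le_prod (s : Finset ℕ) (a b : ℕ → ℝ) (ha : ∀ i ∈ s, 1 ≤ a i) (hb : ∀ i ∈ s, 0 ≤ b i) :
    1 ≤ ∏ i ∈ s, a i ∧ 0 ≤ ∑ i ∈ s, b i ∧ ∏ i ∈ s, a i + ∑ i ∈ s, b i ≤ ∏ i ∈ s, (a i + b i) := by
  induction s using Finset.induction_on with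
  | empty => simp
  | insert q s hq ih =>
    obtain ⟨h1, h2, h3⟩ := ih (fun i hi => ha i (mem_insert_of_mem hi))
      (fun i hi => hb i (mem_insert_of_mem hi))
    have hA := ha q (mem_insert_self q s)
    have hB := hb q (mem_insert_self q s)
    rw [prod_insert hq, sum_insert hq, prod_insert hq]
    refine ⟨by nlinarith, by linarith, ?_⟩
    have h4 : (a q + b q) * (∏ i ∈ s, a i + ∑ i ∈ s, b i) ≤ (a q + b q) * ∏ i ∈ s, (a i + b i) :=
      mul_le_mul_of_nonneg_left h3 (by linarith)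
    have h5 : 0 ≤ (a q - 1) * ∑ i ∈ s, b i := mul_nonneg (by linarith) h2
    have h6 : 0 ≤ b q * (∏ i ∈ s, a i + ∑ i ∈ s, b i - 1) := mul_nonneg hB (by linarith)
    nlinarith

theorem pow_lin (m : ℕ) : ∃ c : ℝ, 0 ≤ c ∧ ∀ x : ℝ, 0 ≤ x → x ≤ 4 → (1 + x) ^ m ≤ 1 + c * x := by
  induction m with
  | zero => exact ⟨0, le_rfl, fun x _ _ => by simp⟩
  | succ m ih =>
    obtain ⟨c, hc, h⟩ := ih
    refine ⟨5 * c + 1, by linarith, fun x h0 h4 => ?_⟩
    have h1 := h x h0 h4
    have h2 : 0 ≤ c * x * (4 - x) := mul_nonneg (mul_nonneg hc h0) (by linarith)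
    rw [pow_succ]
    have h3 : (1 + x) ^ m * (1 + x) ≤ (1 + c * x) * (1 + x) :=
      mul_le_mul_of_nonneg_right h1 (by linarith)
    nlinarith

theorem one_le_prod (s : Finset ℕ) (f : ℕ → ℝ) (hf : ∀ i ∈ s, 1 ≤ f i) : 1 ≤ ∏ i ∈ s, f i := by
  have := Finset.prod_le_prod (s := s) (f := fun _ => (1 : ℝ)) (g := f)
    (fun _ _ => zero_le_one) hf
  simpa using this

theorem prod_mono {s t : Finset ℕ} (h : s ⊆ t) (f : ℕ → ℝ) (hf : ∀ i ∈ t, 1 ≤ f i) :
    ∏ i ∈ s, f i ≤ ∏ i ∈ t, f i := by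
  rw [← Finset.prod_sdiff h]
  have h1 : 1 ≤ ∏ i ∈ t \ s, f i := one_le_prod _ _ fun i hi => hf i (mem_sdiff.1 hi).1
  have h0 : 1 ≤ ∏ i ∈ s, f i := one_le_prod _ _ fun i hi => hf i (h hi)
  nlinarith

theorem prime_bd {p : ℕ} (hp : p.Prime) : ((p : ℝ) / ((p : ℝ) - 1)) ^ 2 + 2 / (p : ℝ) ≤ 1 + 8 / p := by
  have h2 : (2 : ℝ) ≤ p := by exact_mod_cast hp.two_le
  have h1 : (0 : ℝ) < p - 1 := by linarith
  have h0 : (0 : ℝ) < p := by linarith
  have : ((p : ℝ) / ((p : ℝ) - 1)) ^ 2 ≤ 1 + 6 / p := by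
    rw [div_pow, div_le_iff₀ (by positivity)]
    have e : (1 + 6 / (p : ℝ)) * ((p : ℝ) - 1) ^ 2 = (p + 6) * ((p : ℝ) - 1) ^ 2 / p := by
      field_simp
    rw [e, le_div_iff₀ h0]
    nlinarith [mul_nonneg (mul_nonneg h0.le (by linarith : (0 : ℝ) ≤ 4 * p - 3))
      (by linarith : (0 : ℝ) ≤ p - 2), mul_nonneg (by linarith : (0 : ℝ) ≤ 4 * (p : ℝ) - 3)
      (by linarith : (0 : ℝ) ≤ (p : ℝ) - 2)]
  have e2 : 8 / (p : ℝ) = 6 / p + 2 / p := by ring
  linarith

theorem V_bd (m : ℕ) : ∃ K : ℝ, 0 ≤ K ∧ ∀ M n : ℕ, (1 + V M n) ^ m ≤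
    ∏ p ∈ n.primeFactors.filter (fun p => ¬ p ∣ M), (1 + K / p) := by
  obtain ⟨c, hc, h⟩ := pow_lin m
  refine ⟨c * 8, by linarith, fun M n => ?_⟩
  set s := n.primeFactors.filter (fun p => ¬ p ∣ M) with hs
  have hp : ∀ p ∈ s, p.Prime := fun p hp => Nat.prime_of_mem_primeFactors (mem_filter.1 hp).1
  have ha : ∀ p ∈ s, 1 ≤ ((p : ℝ) / ((p : ℝ) - 1)) ^ 2 := fun p h1 => by
    have h2 : (2 : ℝ) ≤ p := by exact_mod_cast (hp p h1).two_le
    have : 1 ≤ (p : ℝ) / ((p : ℝ) - 1) := by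
      rw [le_div_iff₀ (by linarith)]
      linarith
    nlinarith
  obtain ⟨h1, h2, h3⟩ := add_le_prod s (fun p => ((p : ℝ) / ((p : ℝ) - 1)) ^ 2)
    (fun p => 2 / (p : ℝ)) ha (fun p _ => by positivity)
  have hV : 1 + V M n = ∏ p ∈ s, ((p : ℝ) / ((p : ℝ) - 1)) ^ 2 + ∑ p ∈ s, 2 / (p : ℝ) := by
    unfold V
    ring
  rw [hV]
  calc (∏ p ∈ s, ((p : ℝ) / ((p : ℝ) - 1)) ^ 2 + ∑ p ∈ s, 2 / (p : ℝ)) ^ m
      ≤ (∏ p ∈ s, (1 + 8 / (p : ℝ))) ^ m := by
        refine pow_le_pow_left₀ (by linarith) (h3.trans ?_) m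
        refine Finset.prod_le_prod (fun p h4 => ?_) (fun p h4 => prime_bd (hp p h4))
        have := ha p h4
        positivity
    _ = ∏ p ∈ s, (1 + 8 / (p : ℝ)) ^ m := (Finset.prod_pow _ _ _).symm
    _ ≤ ∏ p ∈ s, (1 + c * 8 / (p : ℝ)) := by
        refine Finset.prod_le_prod (fun p _ => by positivity) fun p h4 => ?_
        have h5 : (2 : ℝ) ≤ p := by exact_mod_cast (hp p h4).two_le
        have := h (8 / (p : ℝ)) (by positivity) (by
          rw [div_le_iff₀ (by linarith)]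
          linarith)
        rwa [← mul_div_assoc] at this

/-- the multiplicative expansion -/
theorem expand (T : ℕ) (P : Finset ℕ) (hP : ∀ p ∈ P, p.Prime) {K : ℝ} (hK : 0 ≤ K) :
    ∑ d ∈ Icc 1 T, ∏ p ∈ P, (if p ∣ d then 1 + K / p else 1) ≤
      T * ∏ p ∈ P, (1 + K / (p : ℝ) ^ 2) := by
  have h1 : ∀ d ∈ Icc 1 T, ∏ p ∈ P, (if p ∣ d then 1 + K / (p : ℝ) else 1) =
      ∑ S ∈ P.powerset, (if ∀ p ∈ S, p ∣ d then ∏ p ∈ S, K / (p : ℝ) else 0) := by
    intro d _
    have e : ∀ p ∈ P, (if p ∣ d then 1 + K / (p : ℝ) else 1) =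
        1 + (if p ∣ d then K / (p : ℝ) else 0) := fun p _ => by split_ifs <;> simp
    rw [Finset.prod_congr rfl e, Finset.prod_one_add]
    refine Finset.sum_congr rfl fun S _ => ?_
    split_ifs with h
    · exact Finset.prod_congr rfl fun p hp => by rw [if_pos (h p hp)]
    · push Not at h
      obtain ⟨p, hp, hd⟩ := h
      exact Finset.prod_eq_zero hp (by rw [if_neg hd])
  rw [Finset.sum_congr rfl h1, Finset.sum_comm, Finset.prod_one_add, Finset.mul_sum]
  refine Finset.sum_le_sum fun S hS => ?_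
  rw [Finset.mem_powerset] at hS
  rw [← Finset.sum_filter, Finset.sum_const, nsmul_eq_mul]
  have hc : (((Icc 1 T).filter (fun d => ∀ p ∈ S, p ∣ d)).card : ℝ) ≤ T / (∏ p ∈ S, (p : ℝ)) := by
    have h2 : (Icc 1 T).filter (fun d => ∀ p ∈ S, p ∣ d) ⊆
        (Ioc 0 T).filter (fun d => (∏ p ∈ S, p) ∣ d) := by
      intro d hd
      rw [mem_filter] at hd ⊢
      refine ⟨by
        have := mem_Icc.1 hd.1
        exact mem_Ioc.2 ⟨by omega, this.2⟩, ?_⟩
      exact Finset.prod_primes_dvd d (fun p hp => (hP p (hS hp)).prime) hd.2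
    have h3 := Finset.card_le_card h2
    rw [Nat.Ioc_filter_dvd_card_eq_div] at h3
    calc (((Icc 1 T).filter (fun d => ∀ p ∈ S, p ∣ d)).card : ℝ)
        ≤ ((T / ∏ p ∈ S, p : ℕ) : ℝ) := by exact_mod_cast h3
      _ ≤ (T : ℝ) / ((∏ p ∈ S, p : ℕ) : ℝ) := Nat.cast_div_le
      _ = T / (∏ p ∈ S, (p : ℝ)) := by push_cast; rfl
  have hpos : 0 ≤ ∏ p ∈ S, K / (p : ℝ) := Finset.prod_nonneg fun p _ => by positivity
  calc (((Icc 1 T).filter (fun d => ∀ p ∈ S, p ∣ d)).card : ℝ) * ∏ p ∈ S, K / (p : ℝ)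
      ≤ T / (∏ p ∈ S, (p : ℝ)) * ∏ p ∈ S, K / (p : ℝ) := mul_le_mul_of_nonneg_right hc hpos
    _ = T * ∏ p ∈ S, K / (p : ℝ) ^ 2 := by
        rw [div_mul_eq_mul_div, mul_div_assoc, ← Finset.prod_div_distrib]
        congr 1
        refine Finset.prod_congr rfl fun p _ => ?_
        rw [div_div, sq]

theorem sq_sum (W T : ℕ) (hW : 1 ≤ W) (P : Finset ℕ) (hP : P ⊆ Ioc W T) :
    ∑ p ∈ P, (1 : ℝ) / (p : ℝ) ^ 2 ≤ 1 / W := by
  rcases le_total W T with h | h
  · calc ∑ p ∈ P, (1 : ℝ) / (p : ℝ) ^ 2 ≤ ∑ p ∈ Ioc W T, (1 : ℝ) / (p : ℝ) ^ 2 :=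
          Finset.sum_le_sum_of_subset_of_nonneg hP fun _ _ _ => by positivity
      _ = ∑ p ∈ Ioc W T, ((p : ℝ) ^ 2)⁻¹ := Finset.sum_congr rfl fun p _ => one_div _
      _ ≤ (W : ℝ)⁻¹ - (T : ℝ)⁻¹ := sum_Ioc_inv_sq_le_sub (by omega) h
      _ ≤ 1 / W := by
          rw [one_div]
          have : (0 : ℝ) ≤ (T : ℝ)⁻¹ := by positivity
          linarith
  · have : P = ∅ := by
      rw [← Finset.subset_empty]
      refine hP.trans ?_
      rw [Finset.Ioc_eq_empty (by omega)]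
    rw [this]
    simp

theorem expand2 (W T : ℕ) (hW : 1 ≤ W) (P : Finset ℕ) (hP : ∀ p ∈ P, p.Prime) (hPW : P ⊆ Ioc W T)
    {K : ℝ} (hK : 0 ≤ K) :
    ∑ d ∈ Icc 1 T, ∏ p ∈ P, (if p ∣ d then 1 + K / p else 1) ≤
      T * (1 + K * Real.exp K / W) := by
  refine (expand T P hP hK).trans (mul_le_mul_of_nonneg_left ?_ (Nat.cast_nonneg T))
  have hW' : (1 : ℝ) ≤ W := by exact_mod_cast hW
  calc ∏ p ∈ P, (1 + K / (p : ℝ) ^ 2) ≤ ∏ p ∈ P, Real.exp (K / (p : ℝ) ^ 2) := by
        refine Finset.prod_le_prod (fun p _ => by positivity) fun p _ => ?_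
        have := Real.add_one_le_exp (K / (p : ℝ) ^ 2)
        linarith
    _ = Real.exp (∑ p ∈ P, K / (p : ℝ) ^ 2) := (Real.exp_sum _ _).symm
    _ ≤ Real.exp (K / W) := by
        refine Real.exp_le_exp.2 ?_
        have h1 := mul_le_mul_of_nonneg_left (sq_sum W T hW P hPW) hK
        rw [Finset.mul_sum] at h1
        have e : ∑ p ∈ P, K / (p : ℝ) ^ 2 = ∑ p ∈ P, K * (1 / (p : ℝ) ^ 2) :=
          Finset.sum_congr rfl fun p _ => by ring
        rw [e]
        refine h1.trans (le_of_eq (by ring))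
    _ ≤ 1 + K * Real.exp K / W := by
        have hx : K / W ≤ K := div_le_self hK hW'
        have h0 : 0 ≤ K / W := by positivity
        have h1 := Real.add_one_le_exp (-(K / W))
        have h2 := Real.exp_pos (K / W)
        have h3 : Real.exp (-(K / W)) * Real.exp (K / W) = 1 := by
          rw [← Real.exp_add]
          simp
        have h4 : Real.exp (K / W) ≤ Real.exp K := Real.exp_le_exp.2 hx
        have h5 : (-(K / W) + 1) * Real.exp (K / W) ≤ 1 :=
          (mul_le_mul_of_nonneg_right h1 h2.le).trans h3.le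
        have h6 : K / W * Real.exp (K / W) ≤ K / W * Real.exp K :=
          mul_le_mul_of_nonneg_left h4 h0
        have h7 : K * Real.exp K / W = K / W * Real.exp K := by ring
        rw [h7]
        linarith

theorem pairs (T : ℕ) (F : ℕ → ℝ) (hF : ∀ d ∈ Icc 1 T, 0 ≤ F d) :
    ∑ x ∈ (range T ×ˢ range T).filter (fun x => x.1 ≠ x.2), F (((x.1 : ℤ) - x.2).natAbs) ≤
      T * (2 * ∑ d ∈ Icc 1 T, F d) := by
  rw [Finset.sum_filter, Finset.sum_product]
  have key : ∀ t ∈ range T, ∑ t' ∈ range T, (if t ≠ t' then F (((t : ℤ) - t').natAbs) else 0) ≤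
      2 * ∑ d ∈ Icc 1 T, F d := by
    intro t ht
    rw [mem_range] at ht
    have e : ∀ t' ∈ range T, (if t ≠ t' then F (((t : ℤ) - t').natAbs) else 0) =
        (if t' < t then F (((t : ℤ) - t').natAbs) else 0) +
        (if t < t' then F (((t : ℤ) - t').natAbs) else 0) := by
      intro t' _
      rcases lt_trichotomy t t' with h | h | h
      · rw [if_pos h.ne, if_neg (by omega), if_pos h, zero_add]
      · subst h
        simp
      · rw [if_pos h.ne', if_pos h, if_neg (by omega), add_zero]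
    rw [Finset.sum_congr rfl e, Finset.sum_add_distrib, ← Finset.sum_filter, ← Finset.sum_filter,
      two_mul]
    refine add_le_add ?_ ?_
    · have h1 : ∑ t' ∈ (range T).filter (fun t' => t' < t), F (((t : ℤ) - t').natAbs) =
          ∑ d ∈ ((range T).filter (fun t' => t' < t)).image (fun t' : ℕ => ((t : ℤ) - t').natAbs),
            F d := by
        rw [Finset.sum_image]
        intro a ha b hb hab
        have ha' := (mem_filter.1 (mem_coe.1 ha)).2
        have hb' := (mem_filter.1 (mem_coe.1 hb)).2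
        simp only at hab
        omega
      rw [h1]
      refine Finset.sum_le_sum_of_subset_of_nonneg ?_ fun d hd _ => hF d hd
      intro d hd
      obtain ⟨a, ha, rfl⟩ := mem_image.1 hd
      have ha' := (mem_filter.1 ha).2
      rw [mem_Icc]
      omega
    · have h1 : ∑ t' ∈ (range T).filter (fun t' => t < t'), F (((t : ℤ) - t').natAbs) =
          ∑ d ∈ ((range T).filter (fun t' => t < t')).image (fun t' : ℕ => ((t : ℤ) - t').natAbs),
            F d := by
        rw [Finset.sum_image]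
        intro a ha b hb hab
        have ha' := (mem_filter.1 (mem_coe.1 ha)).2
        have hb' := (mem_filter.1 (mem_coe.1 hb)).2
        simp only at hab
        omega
      rw [h1]
      refine Finset.sum_le_sum_of_subset_of_nonneg ?_ fun d hd _ => hF d hd
      intro d hd
      obtain ⟨a, ha, rfl⟩ := mem_image.1 hd
      have ha' := mem_filter.1 ha
      have := mem_range.1 ha'.1
      have := ha'.2
      rw [mem_Icc]
      omega
  refine (Finset.sum_le_sum key).trans ?_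
  rw [Finset.sum_const, card_range, nsmul_eq_mul]

end VSUM

open VSUM in
/-- Part VSUM. -/
theorem vsum_ : S_VSUM := by
  classical
  intro m
  obtain ⟨K, hK, hV⟩ := V_bd m
  refine ⟨2 * (K + K * Real.exp K + K * (K * Real.exp K)), by positivity, ?_⟩
  intro W M g q' T hW hM hWM hg hq hWq
  have hW' : (1 : ℝ) ≤ W := by exact_mod_cast hW
  have hWq' : (W : ℝ) ≤ q' := by exact_mod_cast hWq
  have hq0 : (0 : ℝ) < q' := by linarith
  set P := (Ioc W T).filter Nat.Prime with hPdef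
  have hP : ∀ p ∈ P, p.Prime := fun p hp => (mem_filter.1 hp).2
  set G : ℕ → ℝ := fun d => ∏ p ∈ P, (if p ∣ d then 1 + K / (p : ℝ) else 1) with hG
  set F : ℕ → ℝ := fun d => (1 + K / (q' : ℝ)) * G d - 1 with hFdef
  have hG1 : ∀ d, 1 ≤ G d := fun d => one_le_prod _ _ fun p _ => by
    have : 0 ≤ K / (p : ℝ) := by positivity
    split_ifs <;> linarith
  have hKq : 0 ≤ K / (q' : ℝ) := by positivity
  have hF : ∀ d ∈ Icc 1 T, 0 ≤ F d := fun d _ => by
    have := hG1 d
    simp only [hFdef]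
    nlinarith
  have hM0 : M ≠ 0 := by omega
  -- the comparison for one pair
  have hone : ∀ d ∈ Icc 1 T, (1 + V M (g * q' * (M * d))) ^ m - 1 ≤ F d := by
    intro d hd
    rw [mem_Icc] at hd
    refine sub_le_sub_right ((hV M _).trans ?_) 1
    have hsub : (g * q' * (M * d)).primeFactors.filter (fun p => ¬ p ∣ M) ⊆
        insert q' (P.filter (fun p => p ∣ d)) := by
      intro p hp
      rw [mem_filter] at hp
      have hpp := Nat.prime_of_mem_primeFactors hp.1
      have hdv := Nat.dvd_of_mem_primeFactors hp.1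
      rcases (Nat.Prime.dvd_mul hpp).1 hdv with h | h
      · rcases (Nat.Prime.dvd_mul hpp).1 h with h | h
        · exact absurd (hg p hpp h) hp.2
        · rw [(Nat.prime_dvd_prime_iff_eq hpp hq).1 h]
          exact mem_insert_self _ _
      · rcases (Nat.Prime.dvd_mul hpp).1 h with h | h
        · exact absurd h hp.2
        · refine mem_insert_of_mem (mem_filter.2 ⟨mem_filter.2 ⟨mem_Ioc.2 ⟨?_, ?_⟩, hpp⟩, h⟩)
          · by_contra h1
            exact hp.2 (hWM p hpp (by omega))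
          · exact (Nat.le_of_dvd (by omega) h).trans hd.2
    have h1 : ∀ p ∈ insert q' (P.filter (fun p => p ∣ d)), (1 : ℝ) ≤ 1 + K / (p : ℝ) :=
      fun p _ => by
        have : 0 ≤ K / (p : ℝ) := by positivity
        linarith
    refine (prod_mono hsub _ h1).trans ?_
    have hGd : G d = ∏ p ∈ P.filter (fun p => p ∣ d), (1 + K / (p : ℝ)) := by
      rw [hG]
      exact (Finset.prod_filter _ _).symm
    rw [hGd]
    by_cases hmem : q' ∈ P.filter (fun p => p ∣ d)
    · rw [Finset.insert_eq_of_mem hmem]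
      have h2 : 1 ≤ ∏ p ∈ P.filter (fun p => p ∣ d), (1 + K / (p : ℝ)) :=
        one_le_prod _ _ fun p hp => h1 p (mem_insert_of_mem hp)
      nlinarith
    · rw [Finset.prod_insert hmem]
  have hsum : ∑ x ∈ (range T ×ˢ range T).filter (fun x => x.1 ≠ x.2),
      ((1 + V M (g * q' * (M * ((x.1 : ℤ) - x.2).natAbs))) ^ m - 1) ≤
      ∑ x ∈ (range T ×ˢ range T).filter (fun x => x.1 ≠ x.2), F (((x.1 : ℤ) - x.2).natAbs) := by
    refine Finset.sum_le_sum fun x hx => hone _ ?_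
    obtain ⟨h1, h2⟩ := mem_filter.1 hx
    obtain ⟨h3, h4⟩ := mem_product.1 h1
    rw [mem_range] at h3 h4
    rw [mem_Icc]
    omega
  refine hsum.trans ((pairs T F hF).trans ?_)
  have hE := expand2 W T hW P hP (filter_subset _ _) hK
  have hFs : ∑ d ∈ Icc 1 T, F d = (1 + K / (q' : ℝ)) * ∑ d ∈ Icc 1 T, G d - T := by
    simp only [hFdef]
    rw [Finset.sum_sub_distrib, ← Finset.mul_sum]
    simp
  have hT : (0 : ℝ) ≤ T := Nat.cast_nonneg T
  have hE0 : 0 ≤ K * Real.exp K / W := by positivity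
  have hKqW : K / (q' : ℝ) ≤ K / W := div_le_div_of_nonneg_left hK (by linarith) hWq'
  have h1 : ∑ d ∈ Icc 1 T, F d ≤ T * ((K + K * Real.exp K + K * (K * Real.exp K)) / W) := by
    rw [hFs]
    have h2 : (1 + K / (q' : ℝ)) * ∑ d ∈ Icc 1 T, G d ≤
        (1 + K / W) * (T * (1 + K * Real.exp K / W)) :=
      mul_le_mul (by linarith) hE (Finset.sum_nonneg fun d _ => by linarith [hG1 d])
        (by positivity)
    have h3 : (K / W) * (K * Real.exp K / W) ≤ K * (K * Real.exp K) / W := by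
      have e : (K / W) * (K * Real.exp K / W) = K * (K * Real.exp K) / W / W := by
        field_simp
      rw [e]
      exact div_le_self (by positivity) hW'
    have e2 : (K + K * Real.exp K + K * (K * Real.exp K)) / (W : ℝ) =
        K / W + K * Real.exp K / W + K * (K * Real.exp K) / W := by ring
    rw [e2]
    nlinarith [mul_le_mul_of_nonneg_left h3 hT]
  calc (T : ℝ) * (2 * ∑ d ∈ Icc 1 T, F d)
      ≤ T * (2 * (T * ((K + K * Real.exp K + K * (K * Real.exp K)) / W))) := by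
        refine mul_le_mul_of_nonneg_left ?_ hT
        linarith
    _ = 2 * (K + K * Real.exp K + K * (K * Real.exp K)) * T ^ 2 / W := by ring

end Pool.Agent.N771.DC
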